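import Mathlib
import Pool.Graph.R_seed8.H470R2.Box3

set_option autoImplicit false

namespace Pool.Agent.Results.MP_8bf294_an.CubeUpperBound

open Pool.Agent

/-- **Failure of the conjectured lower bound at `d = 3`, `r = 1`, with a rate, for every number of
knots.**  There is a constant `K` such that

(1) for every `m ≥ 3` some `m` knots in `[0,1]³`, with the EQUAL weights `1/m`, have
`|∑ (1/m) B_1(t, ξ) - t₀ t₁ t₂| ≤ K (log m)² / (m (log log m)²)` for all `t ∈ [0,1]³`, so that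
`D_1^o(m,3)_∞ ≤ K (log m)² / (m (log log m)²)`;

(2) for every `M ≥ 3` there is a planar sequence in `[0,1)²` all of whose initial segments of length
`N ≤ M` have star-discrepancy (counting normalisation) at most `K (log M)² / (log log M)²`;

(3) in particular for every `c > 0` the conjectured bound `c (log m)² / m` fails at EVERY
sufficiently large `m` (not only along a sequence). -/
theorem result :
    ∃ K : ℝ, 0 < K ∧
      (∀ m : ℕ, 3 ≤ m →
        ∃ ξ : Fin m → Fin 3 → ℝ, (∀ μ j, ξ μ j ∈ Set.Icc (0:ℝ) 1) ∧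
          ∀ t : Fin 3 → ℝ, (∀ j, t j ∈ Set.Icc (0:ℝ) 1) →
            |(∑ μ : Fin m, (1 / (m:ℝ)) * ∏ j : Fin 3,
                (if ξ μ j < t j then (t j - ξ μ j) ^ (1 - 1) / ((1 - 1).factorial : ℝ) else 0))
              - ∏ j : Fin 3, (t j ^ 1 / ((1:ℕ).factorial : ℝ))|
              ≤ K * (Real.log (m:ℝ)) ^ 2 / ((m:ℝ) * (Real.log (Real.log (m:ℝ))) ^ 2)) ∧
      (∀ M : ℕ, 3 ≤ M →
        ∃ X Y : ℕ → ℝ, (∀ n, 0 ≤ X n ∧ X n < 1) ∧ (∀ n, 0 ≤ Y n ∧ Y n < 1) ∧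
          ∀ N ≤ M, ∀ x y : ℝ, 0 ≤ x → x ≤ 1 → 0 ≤ y → y ≤ 1 →
            |(((Finset.range N).filter (fun n => X n < x ∧ Y n < y)).card : ℝ) - N * x * y|
              ≤ K * (Real.log (M:ℝ)) ^ 2 / (Real.log (Real.log (M:ℝ))) ^ 2) ∧
      (∀ c : ℝ, 0 < c → ∃ m₀ : ℕ, ∀ m : ℕ, m₀ ≤ m →
        ∃ ξ : Fin m → Fin 3 → ℝ, (∀ μ j, ξ μ j ∈ Set.Icc (0:ℝ) 1) ∧
          ∀ t : Fin 3 → ℝ, (∀ j, t j ∈ Set.Icc (0:ℝ) 1) →
            |(∑ μ : Fin m, (1 / (m:ℝ)) * ∏ j : Fin 3,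
                (if ξ μ j < t j then (t j - ξ μ j) ^ (1 - 1) / ((1 - 1).factorial : ℝ) else 0))
              - ∏ j : Fin 3, (t j ^ 1 / ((1:ℕ).factorial : ℝ))|
              < c * (Real.log (m:ℝ)) ^ (3 - 1) / (m:ℝ) ^ 1) := by
  obtain ⟨K, hK, hfin⟩ := H470R2.finite_all
  have hlogs : ∀ M : ℕ, 3 ≤ M → 1 < Real.log M ∧ 0 < Real.log (Real.log M) ∧
      1 ≤ (Real.log M) ^ 2 / (Real.log (Real.log M)) ^ 2 := by
    intro M hM
    have hM0 : (0:ℝ) < M := by exact_mod_cast (by omega : 0 < M)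
    have hM3 : (3:ℝ) ≤ M := by exact_mod_cast hM
    have hlogM : 1 < Real.log M := by
      rw [Real.lt_log_iff_exp_lt hM0]
      exact lt_of_lt_of_le (lt_trans Real.exp_one_lt_d9 (by norm_num)) hM3
    have hll : 0 < Real.log (Real.log M) := Real.log_pos hlogM
    refine ⟨hlogM, hll, ?_⟩
    have h1 : Real.log (Real.log M) ≤ Real.log M := by
      have := Real.log_le_sub_one_of_pos (show (0:ℝ) < Real.log M by linarith)
      linarith
    rw [le_div_iff₀ (by positivity), one_mul]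
    exact pow_le_pow_left₀ hll.le h1 2
  have key : ∀ m : ℕ, 3 ≤ m →
        ∃ ξ : Fin m → Fin 3 → ℝ, (∀ μ j, ξ μ j ∈ Set.Icc (0:ℝ) 1) ∧
          ∀ t : Fin 3 → ℝ, (∀ j, t j ∈ Set.Icc (0:ℝ) 1) →
            |(∑ μ : Fin m, (1 / (m:ℝ)) * ∏ j : Fin 3,
                (if ξ μ j < t j then (t j - ξ μ j) ^ (1 - 1) / ((1 - 1).factorial : ℝ) else 0))
              - ∏ j : Fin 3, (t j ^ 1 / ((1:ℕ).factorial : ℝ))|
              ≤ (K + 1) * (Real.log (m:ℝ)) ^ 2 / ((m:ℝ) * (Real.log (Real.log (m:ℝ))) ^ 2) := by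
    intro M hM3
    obtain ⟨X, Y, hX, hY, hb⟩ := hfin M hM3
    have hM1 : 1 ≤ M := by omega
    have hM0 : (0:ℝ) < M := by exact_mod_cast hM1
    have hmem : ∀ (μ : Fin M) (j : Fin 3),
        (![(μ:ℝ) / M, X μ, Y μ] : Fin 3 → ℝ) j ∈ Set.Icc (0:ℝ) 1 := by
      intro μ j
      fin_cases j
      · show 0 ≤ ((μ:ℕ):ℝ) / M ∧ ((μ:ℕ):ℝ) / M ≤ 1
        refine ⟨by positivity, ?_⟩
        rw [div_le_one hM0]
        exact_mod_cast μ.2.le
      · exact ⟨(hX μ).1, (hX μ).2.le⟩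
      · exact ⟨(hY μ).1, (hY μ).2.le⟩
    refine ⟨fun μ => ![(μ:ℝ) / M, X μ, Y μ], hmem, ?_⟩
    intro t ht
    have hcube := H470R2.cube_star hM1 hb (ht 0).1 (ht 0).2 (ht 1).1 (ht 1).2 (ht 2).1 (ht 2).2
    have hsum : (∑ μ : Fin M, (1 / (M:ℝ)) * ∏ j : Fin 3,
        (if (![(μ:ℝ) / M, X μ, Y μ] : Fin 3 → ℝ) j < t j then
          (t j - (![(μ:ℝ) / M, X μ, Y μ] : Fin 3 → ℝ) j) ^ (1 - 1) / ((1 - 1).factorial : ℝ) else 0)) =
        (((Finset.range M).filter (fun n : ℕ => (n:ℝ) / M < t 0 ∧ X n < t 1 ∧ Y n < t 2)).card : ℝ) / M := by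
      rw [← Finset.mul_sum]
      have e1 : ∀ μ : Fin M, (∏ j : Fin 3,
        (if (![(μ:ℝ) / M, X μ, Y μ] : Fin 3 → ℝ) j < t j then
          (t j - (![(μ:ℝ) / M, X μ, Y μ] : Fin 3 → ℝ) j) ^ (1 - 1) / ((1 - 1).factorial : ℝ) else 0)) =
          if ((μ:ℕ):ℝ) / M < t 0 ∧ X μ < t 1 ∧ Y μ < t 2 then (1:ℝ) else 0 := by
        intro μ
        rw [Fin.prod_univ_three]
        simp only [Matrix.cons_val_zero, Matrix.cons_val_one, Matrix.cons_val]
        by_cases h0 : ((μ:ℕ):ℝ) / M < t 0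
        · by_cases h1 : X μ < t 1
          · by_cases h2 : Y μ < t 2
            · simp [h0, h1, h2]
            · simp [h0, h1, h2]
          · simp [h0, h1]
        · simp [h0]
      rw [Finset.sum_congr rfl (fun μ _ => e1 μ)]
      rw [Fin.sum_univ_eq_sum_range (fun n : ℕ => if (n:ℝ) / M < t 0 ∧ X n < t 1 ∧ Y n < t 2 then
        (1:ℝ) else 0) M]
      rw [← Finset.sum_filter, Finset.sum_const, nsmul_eq_mul, mul_one]
      ring
    rw [hsum]
    have hprod : ∏ j : Fin 3, (t j ^ 1 / ((1:ℕ).factorial : ℝ)) = t 0 * t 1 * t 2 := by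
      rw [Fin.prod_univ_three]
      simp
    rw [hprod]
    have e2 : (((Finset.range M).filter (fun n : ℕ => (n:ℝ) / M < t 0 ∧ X n < t 1 ∧ Y n < t 2)).card : ℝ)
        / M - t 0 * t 1 * t 2 =
        ((((Finset.range M).filter (fun n : ℕ => (n:ℝ) / M < t 0 ∧ X n < t 1 ∧ Y n < t 2)).card : ℝ)
        - M * t 0 * t 1 * t 2) / M := by field_simp
    obtain ⟨h1, h2, h3⟩ := hlogs M hM3
    have e3 : (K + 1) * (Real.log (M:ℝ)) ^ 2 / ((M:ℝ) * (Real.log (Real.log (M:ℝ))) ^ 2) =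
        ((K + 1) * ((Real.log (M:ℝ)) ^ 2 / (Real.log (Real.log (M:ℝ))) ^ 2)) / M := by
      field_simp
    rw [e2, abs_div, abs_of_pos hM0, e3]
    apply div_le_div_of_nonneg_right _ hM0.le
    refine hcube.trans ?_
    nlinarith [h3]
  refine ⟨K + 1, by positivity, key, ?_, ?_⟩
  · intro M hM
    obtain ⟨X, Y, hX, hY, hb⟩ := hfin M hM
    refine ⟨X, Y, hX, hY, ?_⟩
    intro N hN x y hx hx' hy hy'
    obtain ⟨h1, h2, h3⟩ := hlogs M hM
    refine (hb N hN x y hx hx' hy hy').trans ?_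
    rw [mul_div_assoc]
    nlinarith [h3]
  · intro c hc
    have h1 : Filter.Tendsto (fun M : ℕ => Real.log (M:ℝ)) Filter.atTop Filter.atTop :=
      Real.tendsto_log_atTop.comp tendsto_natCast_atTop_atTop
    have h2 : Filter.Tendsto (fun M : ℕ => Real.log (Real.log (M:ℝ))) Filter.atTop Filter.atTop :=
      Real.tendsto_log_atTop.comp h1
    have h3 : Filter.Tendsto (fun M : ℕ => (K + 1) / (Real.log (Real.log (M:ℝ))) ^ 2) Filter.atTop
        (nhds 0) := by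
      apply Filter.Tendsto.div_atTop tendsto_const_nhds
      exact (Filter.tendsto_pow_atTop (by norm_num)).comp h2
    obtain ⟨m₁, hm₁⟩ := Filter.eventually_atTop.1 (h3.eventually (gt_mem_nhds hc))
    refine ⟨max m₁ 3, ?_⟩
    intro m hm
    have hm3 : 3 ≤ m := (le_max_right _ _).trans hm
    obtain ⟨ξ, hξ, hb⟩ := key m hm3
    refine ⟨ξ, hξ, ?_⟩
    intro t ht
    refine lt_of_le_of_lt (hb t ht) ?_
    obtain ⟨k1, k2, k3⟩ := hlogs m hm3
    have hm0 : (0:ℝ) < m := by exact_mod_cast (by omega : 0 < m)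
    have h4 := hm₁ m ((le_max_left _ _).trans hm)
    have e3 : (K + 1) * (Real.log (m:ℝ)) ^ 2 / ((m:ℝ) * (Real.log (Real.log (m:ℝ))) ^ 2) =
        ((K + 1) / (Real.log (Real.log (m:ℝ))) ^ 2) * ((Real.log (m:ℝ)) ^ 2 / m) := by
      field_simp
    have e4 : c * (Real.log (m:ℝ)) ^ (3 - 1) / (m:ℝ) ^ 1 = c * ((Real.log (m:ℝ)) ^ 2 / m) := by
      norm_num
      ring
    rw [e3, e4]
    apply mul_lt_mul_of_pos_right h4
    positivity

end Pool.Agent.Results.MP_8bf294_an.CubeUpperBound
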